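import Pool.Agent.H16.EA.Defs

open scoped commutatorElement

namespace H16.EA

/-- conjugating the window by `t^m` shifts it into a bigger window -/
lemma win_conj {G : Type} [Group G] (x t : G) (n m : ℕ) {w : G} (hw : w ∈ win x t n) :
    (t ^ m)⁻¹ * w * t ^ m ∈ win x t (n + m) := by
  unfold win at hw
  induction hw using Subgroup.closure_induction with
  | mem y hy =>
    obtain ⟨i, hi, rfl⟩ := hy
    rw [xs_add]
    exact Subgroup.subset_closure ⟨i + m, by simp only [Set.mem_ofPred_eq] at hi ⊢; omega, rfl⟩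
  | one => simp
  | mul y z _ _ hy hz =>
    have : (t ^ m)⁻¹ * (y * z) * t ^ m = ((t ^ m)⁻¹ * y * t ^ m) * ((t ^ m)⁻¹ * z * t ^ m) := by
      group
    rw [this]
    exact mul_mem hy hz
  | inv y _ hy =>
    have : (t ^ m)⁻¹ * y⁻¹ * t ^ m = ((t ^ m)⁻¹ * y * t ^ m)⁻¹ := by
      group
    rw [this]
    exact inv_mem hy

lemma win_mono {G : Type} [Group G] (x t : G) {n m : ℕ} (h : n ≤ m) : win x t n ≤ win x t m := by
  apply Subgroup.closure_mono
  apply Set.image_mono
  intro i hi
  simp only [Set.mem_ofPred_eq] at hi ⊢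
  omega

lemma xs_mem_win {G : Type} [Group G] (x t : G) {n m : ℕ} (h : n < m) : xs x t n ∈ win x t m :=
  Subgroup.subset_closure ⟨n, h, rfl⟩

/-- iterated commutators -/
def gs {G : Type} [Group G] (x a : G) : ℕ → G
  | 0 => x
  | k + 1 => (gs x a k)⁻¹ * (a⁻¹ * gs x a k * a)

/-- `gs k = w * xs (k j)` with `w` in the window `win (k j)` -/
lemma gs_form {G : Type} [Group G] (x t : G) (j : ℕ) (hj : 0 < j) (k : ℕ) :
    ∃ w ∈ win x t (k * j), gs x (t ^ j) k = w * xs x t (k * j) := by
  induction k with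
  | zero => exact ⟨1, one_mem _, by simp [gs, xs]⟩
  | succ k ih =>
    obtain ⟨w, hw, he⟩ := ih
    have hlt : k * j < (k + 1) * j := by nlinarith
    refine ⟨(gs x (t ^ j) k)⁻¹ * ((t ^ j)⁻¹ * w * t ^ j), ?_, ?_⟩
    · apply mul_mem
      · apply inv_mem
        rw [he]
        exact mul_mem (win_mono x t hlt.le hw) (xs_mem_win x t hlt)
      · have := win_conj x t (k * j) j hw
        rwa [show k * j + j = (k + 1) * j by ring] at this
    · have h1 : gs x (t ^ j) (k + 1) =
          (gs x (t ^ j) k)⁻¹ * ((t ^ j)⁻¹ * gs x (t ^ j) k * t ^ j) := rfl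
      rw [h1]
      have h2 : (t ^ j)⁻¹ * gs x (t ^ j) k * t ^ j =
          ((t ^ j)⁻¹ * w * t ^ j) * xs x t ((k + 1) * j) := by
        rw [he, show (k + 1) * j = k * j + j by ring, ← xs_add x t (k * j) j]
        group
      rw [h2]
      group

theorem not_vnil {G : Type} [Group G] (x t : G) (hx : ∀ n, xs x t n ∉ win x t n) :
    ¬ ∃ K : Subgroup G, K.FiniteIndex ∧ Group.IsNilpotent K := by
  rintro ⟨K, hK, hnil⟩
  -- the normal core
  set C : Subgroup G := K.normalCore with hC
  have hfi : C.FiniteIndex := by rw [hC]; infer_instance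
  have hno : C.Normal := by rw [hC]; infer_instance
  have hCK : C ≤ K := K.normalCore_le
  -- a power of `t` in `C`
  obtain ⟨j, hj, htj⟩ : ∃ j : ℕ, 0 < j ∧ t ^ j ∈ C := by
    refine ⟨C.index, Nat.pos_of_ne_zero Subgroup.FiniteIndex.index_ne_zero, ?_⟩
    exact Subgroup.pow_index_mem C t
  -- gs (k+1) lies in the k-th term of the lower central series of `K`
  have key : ∀ k : ℕ, gs x (t ^ j) (k + 1) ∈ K.lowerCentralSeries k := by
    intro k
    induction k with
    | zero =>
      rw [Subgroup.lowerCentralSeries_zero]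
      apply hCK
      have h1 : gs x (t ^ j) 1 = (x⁻¹ * (t ^ j)⁻¹ * x) * t ^ j := by
        simp only [gs]; group
      rw [h1]
      apply mul_mem _ htj
      have := hno.conj_mem (t ^ j)⁻¹ (inv_mem htj) x⁻¹
      simpa using this
    | succ k ih =>
      rw [Subgroup.lowerCentralSeries_succ]
      have h1 : gs x (t ^ j) (k + 1 + 1) = ⁅(gs x (t ^ j) (k + 1))⁻¹, (t ^ j)⁻¹⁆ := by
        have h2 : gs x (t ^ j) (k + 1 + 1) =
          (gs x (t ^ j) (k + 1))⁻¹ * ((t ^ j)⁻¹ * gs x (t ^ j) (k + 1) * t ^ j) := rfl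
        rw [h2, commutatorElement_def]
        group
      rw [h1]
      exact Subgroup.commutator_mem_commutator (inv_mem ih) (inv_mem (hCK htj))
  obtain ⟨c, hc⟩ := (Subgroup.isNilpotent_iff_lowerCentralSeries K).1 hnil
  have h1 := key c
  rw [hc, Subgroup.mem_bot] at h1
  obtain ⟨w, hw, he⟩ := gs_form x t j hj (c + 1)
  rw [he] at h1
  have h2 : xs x t ((c + 1) * j) = w⁻¹ := by
    rw [eq_comm, inv_eq_iff_mul_eq_one]
    exact h1
  exact hx ((c + 1) * j) (h2 ▸ inv_mem hw)

end H16.EA
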