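import Mathlib

namespace H16.EA

open scoped commutatorElement

/-- pairwise commuting generators modulo a normal subgroup -/
lemma commutator_le_of_gens {Q : Type} [Group Q] (S : Set Q) (hS : Subgroup.closure S = ⊤)
    (Z : Subgroup Q) [Z.Normal] (h : ∀ a ∈ S, ∀ b ∈ S, ⁅a, b⁆ ∈ Z) : commutator Q ≤ Z := by
  have h1 : ∀ a ∈ S, ∀ b ∈ S, (QuotientGroup.mk' Z a) * (QuotientGroup.mk' Z b)
      = (QuotientGroup.mk' Z b) * (QuotientGroup.mk' Z a) := by
    intro a ha b hb
    have := h a ha b hb
    rw [← QuotientGroup.ker_mk' Z, MonoidHom.mem_ker, map_commutatorElement,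
      commutatorElement_eq_one_iff_mul_comm] at this
    exact this
  have h2 : ∀ a ∈ S, ∀ q : Q, (QuotientGroup.mk' Z a) * (QuotientGroup.mk' Z q)
      = (QuotientGroup.mk' Z q) * (QuotientGroup.mk' Z a) := by
    intro a ha q
    have h3 : Subgroup.closure S ≤
        (Subgroup.centralizer {QuotientGroup.mk' Z a}).comap (QuotientGroup.mk' Z) := by
      rw [Subgroup.closure_le]
      intro b hb
      simp only [Subgroup.coe_comap, Set.mem_preimage, SetLike.mem_coe,
        Subgroup.mem_centralizer_iff, Set.mem_singleton_iff, forall_eq]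
      exact h1 a ha b hb
    rw [hS] at h3
    have := h3 (Subgroup.mem_top q)
    simp only [Subgroup.mem_comap, Subgroup.mem_centralizer_iff, Set.mem_singleton_iff,
      forall_eq] at this
    exact this
  have h4 : ∀ p q : Q, (QuotientGroup.mk' Z p) * (QuotientGroup.mk' Z q)
      = (QuotientGroup.mk' Z q) * (QuotientGroup.mk' Z p) := by
    intro p q
    have h3 : Subgroup.closure S ≤
        (Subgroup.centralizer {QuotientGroup.mk' Z q}).comap (QuotientGroup.mk' Z) := by
      rw [Subgroup.closure_le]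
      intro b hb
      simp only [Subgroup.coe_comap, Set.mem_preimage, SetLike.mem_coe,
        Subgroup.mem_centralizer_iff, Set.mem_singleton_iff, forall_eq]
      exact (h2 b hb q).symm
    rw [hS] at h3
    have := h3 (Subgroup.mem_top p)
    simp only [Subgroup.mem_comap, Subgroup.mem_centralizer_iff, Set.mem_singleton_iff,
      forall_eq] at this
    exact this.symm
  rw [commutator_def, Subgroup.commutator_le]
  intro p _ q _
  rw [← QuotientGroup.ker_mk' Z, MonoidHom.mem_ker, map_commutatorElement,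
    commutatorElement_eq_one_iff_mul_comm]
  exact h4 p q

/-- a finite index normal subgroup `C` centralising the commutator subgroup is nilpotent -/
lemma nilp_of_centralises {Q : Type} [Group Q] (C : Subgroup Q)
    (h : commutator Q ≤ Subgroup.centralizer (C : Set Q)) : Group.IsNilpotent C := by
  have h1 : (Abelianization.of : C →* Abelianization C).ker ≤ Subgroup.center C := by
    rw [Abelianization.ker_of, commutator_def, Subgroup.commutator_le]
    intro p _ q _
    rw [Subgroup.mem_center_iff]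
    intro c
    have h2 : ⁅(p : Q), (q : Q)⁆ ∈ commutator Q := by
      rw [commutator_def]
      exact Subgroup.commutator_mem_commutator (Subgroup.mem_top _) (Subgroup.mem_top _)
    have h3 := h h2
    rw [Subgroup.mem_centralizer_iff] at h3
    have h4 := h3 (c : Q) c.2
    apply Subtype.ext
    have h5 : ((⁅p, q⁆ : C) : Q) = ⁅(p : Q), (q : Q)⁆ := rfl
    rw [Subgroup.coe_mul, Subgroup.coe_mul, h5]
    exact h4
  exact Subgroup.isNilpotent_of_ker_le_center _ h1

/-- the torsion argument -/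
lemma torsion_key {G : Type} [Group G] (L : Subgroup G) [L.Normal]
    (hL : ∀ g ∈ L, IsOfFinOrder g)
    (s : ℕ) (M : Subgroup G) [M.Normal]
    (hM : ∀ p : ℕ, p.Prime → p ≤ s → ∀ g ∈ M, g ^ p = 1 → g = 1)
    (H : Subgroup G) {Q : Type} [Group Q] (π : H →* Q)
    (hmet : ∀ x ∈ commutator Q, ∀ y ∈ commutator Q, x * y = y * x)
    (y : H) (hy : π y ∈ commutator Q) (hyL : (y : G) ∈ L) (hs : orderOf (y : G) ≤ s)
    (g : H) (hg : (g : G) ∈ M) : π y * π g = π g * π y := by
  have hy0 : 0 < orderOf (y : G) := (hL _ hyL).orderOf_pos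
  set z : H := y⁻¹ * (g⁻¹ * y * g) with hz
  have hzM : (z : G) ∈ M := by
    have : (z : G) = ((y : G)⁻¹ * (g : G)⁻¹ * ((y : G)⁻¹)⁻¹) * (g : G) := by
      simp [hz, mul_assoc]
    rw [this]
    exact M.mul_mem (Subgroup.Normal.conj_mem inferInstance _ (M.inv_mem hg) _) hg
  have hzL : (z : G) ∈ L := by
    have : (z : G) = (y : G)⁻¹ * ((g : G)⁻¹ * (y : G) * ((g : G)⁻¹)⁻¹) := by
      simp [hz, mul_assoc]
    rw [this]
    exact L.mul_mem (L.inv_mem hyL) (Subgroup.Normal.conj_mem inferInstance _ hyL _)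
  have hz0 : 0 < orderOf (z : G) := (hL _ hzL).orderOf_pos
  have hcop : Nat.Coprime (orderOf (z : G)) (orderOf (y : G)) := by
    apply Nat.Coprime.symm
    apply Nat.coprime_of_dvd
    intro p hp hpy hpz
    have hps : p ≤ s := le_trans (Nat.le_of_dvd hy0 hpy) hs
    obtain ⟨k, hk⟩ := hpz
    have h1 : ((z : G) ^ k) ^ p = 1 := by
      rw [← pow_mul, mul_comm k p, ← hk, pow_orderOf_eq_one]
    have h2 := hM p hp hps _ (M.pow_mem hzM k) h1
    have h3 := orderOf_dvd_of_pow_eq_one h2
    have hk0 : 0 < k := by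
      rcases Nat.eq_zero_or_pos k with h | h
      · subst h; omega
      · exact h
    have h4 := Nat.le_of_dvd hk0 h3
    have h5 := hp.two_le
    nlinarith
  have hr : (π z) ^ (orderOf (y : G)) = 1 := by
    have hz' : π z = (π y)⁻¹ * ((π g)⁻¹ * π y * π g) := by
      simp [hz]
    have hc : (π g)⁻¹ * π y * π g ∈ commutator Q := by
      have h := (inferInstance : (commutator Q).Normal).conj_mem _ hy (π g)⁻¹
      simpa using h
    have hcm : Commute ((π y)⁻¹) ((π g)⁻¹ * π y * π g) :=
      hmet _ ((commutator Q).inv_mem hy) _ hc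
    have hyo : y ^ (orderOf (y : G)) = 1 := by
      apply Subtype.ext
      rw [Subgroup.coe_pow, pow_orderOf_eq_one]
      rfl
    have hyo' : (π y) ^ (orderOf (y : G)) = 1 := by
      rw [← map_pow, hyo, map_one]
    rw [hz', hcm.mul_pow, inv_pow, hyo']
    have : (π g)⁻¹ * π y * π g = (π g)⁻¹ * π y * ((π g)⁻¹)⁻¹ := by simp
    rw [this, conj_pow, hyo']
    simp
  have hr2 : (π z) ^ (orderOf (z : G)) = 1 := by
    have hzo : z ^ (orderOf (z : G)) = 1 := by
      apply Subtype.ext
      rw [Subgroup.coe_pow, pow_orderOf_eq_one]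
      rfl
    rw [← map_pow, hzo, map_one]
  have h1 : π z = 1 := by
    have ha := orderOf_dvd_of_pow_eq_one hr
    have hb := orderOf_dvd_of_pow_eq_one hr2
    have hc := Nat.dvd_gcd hb ha
    rw [Nat.Coprime.gcd_eq_one hcop] at hc
    exact orderOf_eq_one_iff.1 (Nat.dvd_one.1 hc)
  have hz' : π z = (π y)⁻¹ * ((π g)⁻¹ * π y * π g) := by
    simp [hz]
  rw [hz'] at h1
  have h2 : (π g)⁻¹ * π y * π g = π y := by
    have := inv_mul_eq_one.1 h1
    exact this.symm
  calc π y * π g = π g * ((π g)⁻¹ * π y * π g) := by group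
    _ = π g * π y := by rw [h2]

theorem sections {G : Type} [Group G] (L : Subgroup G) [L.Normal]
    (hL : ∀ g ∈ L, IsOfFinOrder g) (hcomm : commutator G ≤ L)
    (hN : ∀ s : ℕ, ∃ N : Subgroup G, N.Normal ∧ N.FiniteIndex ∧
      ∀ p : ℕ, p.Prime → p ≤ s → ∀ g ∈ N, g ^ p = 1 → g = 1)
    (H : Subgroup G) (N : Subgroup H) [N.Normal] (hfg : Group.FG (H ⧸ N))
    (hmet : derivedSeries (H ⧸ N) 2 = ⊥) :
    ∃ K : Subgroup (H ⧸ N), K.FiniteIndex ∧ Group.IsNilpotent K := by
  obtain ⟨n, S, -, hS⟩ := Group.fg_iff'.1 hfg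
  set π : H →* H ⧸ N := QuotientGroup.mk' N with hπ
  have hsurj : Function.Surjective π := QuotientGroup.mk'_surjective N
  choose lift hlift using hsurj
  -- commuting of the commutator subgroup
  have hab : ∀ x ∈ commutator (H ⧸ N), ∀ y ∈ commutator (H ⧸ N), x * y = y * x := by
    intro x hx y hy
    have h1 : ⁅x, y⁆ ∈ derivedSeries (H ⧸ N) 2 := by
      have h2 : derivedSeries (H ⧸ N) 2 = ⁅commutator (H ⧸ N), commutator (H ⧸ N)⁆ := by
        rw [derivedSeries_succ, derivedSeries_one]
      rw [h2]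
      exact Subgroup.commutator_mem_commutator hx hy
    rw [hmet, Subgroup.mem_bot, commutatorElement_eq_one_iff_mul_comm] at h1
    exact h1
  -- the bound
  let s : ℕ := ∑ a ∈ S, ∑ b ∈ S, orderOf ((⁅lift a, lift b⁆ : H) : G)
  obtain ⟨M, hMn, hMf, hM⟩ := hN s
  let C : Subgroup (H ⧸ N) := (M.subgroupOf H).map π
  have hCn : C.Normal := by
    have : (M.subgroupOf H).Normal := inferInstance
    exact this.map π (QuotientGroup.mk'_surjective N)
  have hCf : C.FiniteIndex := by
    constructor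
    have h1 : C.index ∣ (M.subgroupOf H).index :=
      Subgroup.index_map_dvd (M.subgroupOf H) (QuotientGroup.mk'_surjective N)
    have h2 : (M.subgroupOf H).index ≠ 0 := Subgroup.FiniteIndex.index_ne_zero
    intro h0
    rw [h0] at h1
    exact h2 (Nat.eq_zero_of_zero_dvd h1)
  have hgen : ∀ a ∈ (S : Set (H ⧸ N)), ∀ b ∈ (S : Set (H ⧸ N)),
      ⁅a, b⁆ ∈ Subgroup.centralizer (C : Set (H ⧸ N)) := by
    intro a ha b hb
    have e : ⁅a, b⁆ = π ⁅lift a, lift b⁆ := by
      rw [map_commutatorElement, hlift, hlift]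
    have hyc : π ⁅lift a, lift b⁆ ∈ commutator (H ⧸ N) := by
      rw [← e, commutator_def]
      exact Subgroup.commutator_mem_commutator (Subgroup.mem_top _) (Subgroup.mem_top _)
    have hyL : ((⁅lift a, lift b⁆ : H) : G) ∈ L := by
      apply hcomm
      have : ((⁅lift a, lift b⁆ : H) : G) = ⁅((lift a : H) : G), ((lift b : H) : G)⁆ := rfl
      rw [this, commutator_def]
      exact Subgroup.commutator_mem_commutator (Subgroup.mem_top _) (Subgroup.mem_top _)
    have hs : orderOf ((⁅lift a, lift b⁆ : H) : G) ≤ s := by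
      have h1 : orderOf ((⁅lift a, lift b⁆ : H) : G) ≤
          ∑ b ∈ S, orderOf ((⁅lift a, lift b⁆ : H) : G) :=
        Finset.single_le_sum (f := fun b => orderOf ((⁅lift a, lift b⁆ : H) : G))
          (fun _ _ => Nat.zero_le _) hb
      have h2 : ∑ b ∈ S, orderOf ((⁅lift a, lift b⁆ : H) : G) ≤ s :=
        Finset.single_le_sum (f := fun a => ∑ b ∈ S, orderOf ((⁅lift a, lift b⁆ : H) : G))
          (fun _ _ => Nat.zero_le _) ha
      exact h1.trans h2
    rw [Subgroup.mem_centralizer_iff, e]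
    rintro _ ⟨g, hg, rfl⟩
    exact (torsion_key L hL s M hM H π hab _ hyc hyL hs g hg).symm
  have hle : commutator (H ⧸ N) ≤ Subgroup.centralizer (C : Set (H ⧸ N)) :=
    commutator_le_of_gens (S : Set (H ⧸ N)) hS _ hgen
  exact ⟨C, hCf, nilp_of_centralises C hle⟩

end H16.EA
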