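import Mathlib

namespace H16.EA

/-- the conjugates `t^{-n} x t^n` -/
def xs {G : Type} [Group G] (x t : G) (n : ℕ) : G := (t ^ n)⁻¹ * x * t ^ n

lemma xs_zero {G : Type} [Group G] (x t : G) : xs x t 0 = x := by simp [xs]

lemma xs_succ {G : Type} [Group G] (x t : G) (n : ℕ) : xs x t (n + 1) = t⁻¹ * xs x t n * t := by
  simp only [xs, pow_succ]
  group

lemma xs_add {G : Type} [Group G] (x t : G) (n m : ℕ) :
    (t ^ m)⁻¹ * xs x t n * t ^ m = xs x t (n + m) := by
  simp only [xs, pow_add]
  group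

lemma map_xs {G H : Type} [Group G] [Group H] (f : G →* H) (x t : G) (n : ℕ) :
    f (xs x t n) = xs (f x) (f t) n := by
  simp [xs]

/-- the window -/
def win {G : Type} [Group G] (x t : G) (n : ℕ) : Subgroup G :=
  Subgroup.closure (xs x t '' {i | i < n})

end H16.EA
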