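import Mathlib
import Pool.Agent.H16.EA.Defs

namespace H16.EA

open SemidirectProduct

/-- translation action on functions -/
def act (E : Type) [Group E] (l : ℕ) : E →* MulAut (Multiplicative (E → ZMod l)) where
  toFun g :=
    { toFun := fun f => Multiplicative.ofAdd (fun h => (Multiplicative.toAdd f) (g⁻¹ * h))
      invFun := fun f => Multiplicative.ofAdd (fun h => (Multiplicative.toAdd f) (g * h))
      left_inv := fun f => by
        apply Multiplicative.toAdd.injective
        funext h
        simp
      right_inv := fun f => by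
        apply Multiplicative.toAdd.injective
        funext h
        simp
      map_mul' := fun f f' => rfl }
  map_one' := by
    apply MulEquiv.ext
    intro f
    apply Multiplicative.toAdd.injective
    funext h
    show Multiplicative.toAdd f ((1 : E)⁻¹ * h) = Multiplicative.toAdd f h
    simp
  map_mul' g g' := by
    apply MulEquiv.ext
    intro f
    apply Multiplicative.toAdd.injective
    funext h
    show Multiplicative.toAdd f ((g * g')⁻¹ * h) = Multiplicative.toAdd f (g'⁻¹ * (g⁻¹ * h))
    simp [mul_assoc]

lemma act_apply (E : Type) [Group E] (l : ℕ) (g : E) (f : Multiplicative (E → ZMod l)) (h : E) :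
    Multiplicative.toAdd (act E l g f) h = Multiplicative.toAdd f (g⁻¹ * h) := rfl

/-- indicator of a subgroup -/
noncomputable def ind {E : Type} [Group E] (W : Subgroup E) (l : ℕ) :
    Multiplicative (E → ZMod l) := by
  classical
  exact Multiplicative.ofAdd (fun h => if h ∈ W then 1 else 0)

lemma ind_mem {E : Type} [Group E] {W : Subgroup E} {l : ℕ} {h : E} (hh : h ∈ W) :
    Multiplicative.toAdd (ind W l) h = 1 := by
  simp [ind, hh]

lemma ind_not_mem {E : Type} [Group E] {W : Subgroup E} {l : ℕ} {h : E} (hh : h ∉ W) :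
    Multiplicative.toAdd (ind W l) h = 0 := by
  simp [ind, hh]

lemma act_ind {E : Type} [Group E] {W : Subgroup E} {l : ℕ} {g : E} (hg : g ∈ W) :
    act E l g (ind W l) = ind W l := by
  apply Multiplicative.toAdd.injective
  funext h
  rw [act_apply]
  by_cases hh : h ∈ W
  · rw [ind_mem hh, ind_mem (W.mul_mem (W.inv_mem hg) hh)]
  · rw [ind_not_mem hh, ind_not_mem]
    intro h'
    apply hh
    have := W.mul_mem hg h'
    simpa using this

lemma act_ind_ne {E : Type} [Group E] {W : Subgroup E} {l : ℕ} (hl : 1 < l) {g : E} (hg : g ∉ W) :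
    act E l g (ind W l) ≠ ind W l := by
  intro h
  have h1 := congrArg (fun f : Multiplicative (E → ZMod l) => Multiplicative.toAdd f g) h
  simp only [act_apply] at h1
  rw [inv_mul_cancel, ind_mem W.one_mem, ind_not_mem hg] at h1
  have : Fact (1 < l) := ⟨hl⟩
  exact one_ne_zero h1

section step

variable {E : Type} [Group E] (x t : E) (n l : ℕ)

/-- the next group -/
abbrev Nx (E : Type) [Group E] (l : ℕ) := SemidirectProduct (Multiplicative (E → ZMod l)) E (act E l)

/-- next `x` -/
def nx (l : ℕ) : Nx E l := inr x

/-- next `t` -/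
noncomputable def nt : Nx E l := ⟨ind (win x t n) l, t⟩

lemma step1 : ∀ k, k ≤ n → xs (nx x l) (nt x t n l) k = inr (xs x t k) := by
  intro k
  induction k with
  | zero => intro _; rw [xs_zero, xs_zero]; rfl
  | succ k ih =>
    intro hk
    rw [xs_succ, ih (by omega), xs_succ]
    have hmem : xs x t k ∈ win x t n := Subgroup.subset_closure ⟨k, by simpa using hk, rfl⟩
    have h1 : (inr (xs x t k) : Nx E l) * nt x t n l = nt x t n l * inr (t⁻¹ * xs x t k * t) := by
      ext1
      · simp [nt, act_ind hmem]
      · simp [nt, mul_assoc]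
    rw [mul_assoc, h1, inv_mul_cancel_left]

lemma step2 (hl : 1 < l) (hx : xs x t n ∉ win x t n) :
    (xs (nx x l) (nt x t n l) (n + 1)).left ≠ 1 := by
  intro h
  have h0 : xs (nx x l) (nt x t n l) (n + 1) = inr (xs (nx x l) (nt x t n l) (n + 1)).right := by
    ext1
    · simpa using h
    · simp
  have h1 : (inr (xs x t n) : Nx E l) * nt x t n l =
      nt x t n l * inr (xs (nx x l) (nt x t n l) (n + 1)).right := by
    rw [← h0, xs_succ, step1 x t n l n le_rfl]
    group
  have h2 := congrArg SemidirectProduct.left h1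
  simp [nt] at h2
  exact act_ind_ne hl hx h2

lemma step3 (hl : 1 < l) (hx : xs x t n ∉ win x t n) :
    xs (nx x l) (nt x t n l) (n + 1) ∉ win (nx x l) (nt x t n l) (n + 1) := by
  intro h
  have h1 : win (nx x l) (nt x t n l) (n + 1) ≤ (inr : E →* Nx E l).range := by
    rw [win, Subgroup.closure_le]
    rintro _ ⟨k, hk, rfl⟩
    have hk' : k < n + 1 := hk
    rw [step1 x t n l k (by omega)]
    exact ⟨_, rfl⟩
  obtain ⟨u, hu⟩ := h1 h
  apply step2 x t n l hl hx
  rw [← hu]
  simp

end step

/-- a prime `> n` -/
noncomputable def pr (n : ℕ) : ℕ := Classical.choose (Nat.exists_infinite_primes (n + 1))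

lemma pr_gt (n : ℕ) : n < pr n := (Classical.choose_spec (Nat.exists_infinite_primes (n + 1))).1

lemma pr_prime (n : ℕ) : (pr n).Prime :=
  (Classical.choose_spec (Nat.exists_infinite_primes (n + 1))).2

/-- stages -/
structure Stage where
  E : Type
  [grp : Group E]
  [fin : Finite E]
  x : E
  t : E

attribute [instance] Stage.grp Stage.fin

instance (E : Type) [Group E] [Finite E] (n : ℕ) : Finite (Nx E (pr n)) := by
  have : NeZero (pr n) := ⟨(pr_prime n).ne_zero⟩
  have : Finite (Multiplicative (E → ZMod (pr n))) :=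
    Finite.of_equiv (E → ZMod (pr n)) Multiplicative.ofAdd
  exact Finite.of_equiv _ SemidirectProduct.equivProd.symm

/-- next stage -/
noncomputable def Stage.next (S : Stage) (n : ℕ) : Stage where
  E := Nx S.E (pr n)
  x := nx S.x (pr n)
  t := nt S.x S.t n (pr n)

/-- the stages -/
noncomputable def stage : ℕ → Stage
  | 0 => ⟨Multiplicative (ZMod 2), Multiplicative.ofAdd 1, 1⟩
  | n + 1 => (stage n).next n

lemma stage_prop (n : ℕ) : xs (stage n).x (stage n).t n ∉ win (stage n).x (stage n).t n := by
  induction n with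
  | zero =>
    rw [xs_zero, win]
    have : xs (stage 0).x (stage 0).t '' {i | i < 0} = ∅ := by simp
    rw [this, Subgroup.closure_empty, Subgroup.mem_bot]
    intro h
    have h' : (Multiplicative.ofAdd (1 : ZMod 2)) = 1 := h
    have h'' : (1 : ZMod 2) = 0 := h'
    exact absurd h'' (by decide)
  | succ n ih =>
    exact step3 (stage n).x (stage n).t n (pr n) (pr_prime n).one_lt ih

/-- up map -/
noncomputable def up (n : ℕ) : (stage n).E →* (stage (n + 1)).E :=
  (inr : (stage n).E →* Nx (stage n).E (pr n))

/-- down map -/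
noncomputable def down (n : ℕ) : (stage (n + 1)).E →* (stage n).E :=
  (rightHom : Nx (stage n).E (pr n) →* (stage n).E)

lemma down_x (n : ℕ) : down n (stage (n + 1)).x = (stage n).x := rfl

lemma down_t (n : ℕ) : down n (stage (n + 1)).t = (stage n).t := rfl

lemma up_xs (n k : ℕ) (hk : k ≤ n) :
    xs (stage (n + 1)).x (stage (n + 1)).t k = up n (xs (stage n).x (stage n).t k) :=
  step1 (stage n).x (stage n).t n (pr n) k hk

lemma down_tors (n p : ℕ) (hp : p.Prime) (hpn : p ≤ n) (g : (stage (n + 1)).E)
    (h1 : down n g = 1) (h2 : g ^ p = 1) : g = 1 := by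
  change Nx (stage n).E (pr n) at g
  have h1' : g.right = 1 := h1
  have hg : g = inl g.left := by
    ext1
    · simp
    · simpa using h1'
  have h3 : (inl (g.left ^ p) : Nx (stage n).E (pr n)) = 1 := by
    rw [map_pow, ← hg]
    exact h2
  have h4 : g.left ^ p = 1 := by
    have := congrArg SemidirectProduct.left h3
    rwa [left_inl, one_left] at this
  have h5 : g.left = 1 := by
    apply Multiplicative.toAdd.injective
    funext h
    have h6 := congrArg
      (fun f : Multiplicative ((stage n).E → ZMod (pr n)) => Multiplicative.toAdd f h) h4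
    simp only [toAdd_pow, Pi.smul_apply, nsmul_eq_mul, toAdd_one, Pi.zero_apply] at h6
    have : Fact (pr n).Prime := ⟨pr_prime n⟩
    rcases mul_eq_zero.1 h6 with h7 | h7
    · exfalso
      rw [ZMod.natCast_eq_zero_iff] at h7
      have h8 := (Nat.prime_dvd_prime_iff_eq (pr_prime n) hp).1 h7
      have := pr_gt n
      omega
    · exact h7
  rw [hg, h5]
  exact map_one _

end H16.EA
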