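import Mathlib
import Pool.Agent.H16.EA.Defs
import Pool.Agent.H16.EA.C

namespace H16.EA

open scoped commutatorElement

/-- the product of the stages -/
abbrev PP : Type := ∀ n, (stage n).E

/-- the first generator -/
noncomputable def XX : PP := fun n => (stage n).x

/-- the second generator -/
noncomputable def TT : PP := fun n => (stage n).t

/-- the group -/
noncomputable def GG : Subgroup PP := Subgroup.closure {XX, TT}

/-- first generator in `GG` -/
noncomputable def gx : GG := ⟨XX, Subgroup.subset_closure (by simp)⟩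

/-- second generator in `GG` -/
noncomputable def gt : GG := ⟨TT, Subgroup.subset_closure (by simp)⟩

instance : Group.FG GG := by
  unfold GG
  infer_instance

/-- the coordinates -/
noncomputable def ev (n : ℕ) : GG →* (stage n).E := (Pi.evalMonoidHom _ n).comp GG.subtype

lemma ev_x (n : ℕ) : ev n gx = (stage n).x := rfl

lemma ev_t (n : ℕ) : ev n gt = (stage n).t := rfl

lemma ev_inj {g h : GG} (H : ∀ n, ev n g = ev n h) : g = h :=
  Subtype.ext (funext H)

lemma gen_top : Subgroup.closure ({gx, gt} : Set GG) = ⊤ := by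
  have h := Subgroup.closure_closure_coe_preimage (k := ({XX, TT} : Set PP))
  have h2 : ((↑) : Subgroup.closure ({XX, TT} : Set PP) → PP) ⁻¹' {XX, TT} = ({gx, gt} : Set GG) := by
    ext g
    simp only [Set.mem_preimage, Set.mem_insert_iff, Set.mem_singleton_iff]
    constructor
    · rintro (h | h)
      · left; exact Subtype.ext h
      · right; exact Subtype.ext h
    · rintro (h | h)
      · left; rw [h]; rfl
      · right; rw [h]; rfl
  rw [← h2]
  exact h

lemma ev_down (n : ℕ) (g : GG) : down n (ev (n + 1) g) = ev n g := by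
  have : (down n).comp (ev (n + 1)) = ev n := by
    apply MonoidHom.eq_of_eqOn_dense gen_top
    intro g hg
    rcases hg with rfl | hg
    · rfl
    · rw [Set.mem_singleton_iff] at hg
      subst hg
      rfl
  exact DFunLike.congr_fun this g

lemma xs_not_mem (n : ℕ) : xs gx gt n ∉ win gx gt n := by
  intro h
  have h1 : ev n (xs gx gt n) ∈ (win gx gt n).map (ev n) := ⟨_, h, rfl⟩
  rw [map_xs, ev_x, ev_t, win, MonoidHom.map_closure] at h1
  apply stage_prop n
  have h2 : ev n '' (xs gx gt '' {i | i < n}) = xs (stage n).x (stage n).t '' {i | i < n} := by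
    ext g
    constructor
    · rintro ⟨_, ⟨i, hi, rfl⟩, rfl⟩
      exact ⟨i, hi, (map_xs (ev n) gx gt i).symm⟩
    · rintro ⟨i, hi, rfl⟩
      exact ⟨_, ⟨i, hi, rfl⟩, map_xs (ev n) gx gt i⟩
  rw [h2] at h1
  exact h1

lemma win_up (n j : ℕ) (hj : n ≤ j) (g : GG) (hg : g ∈ win gx gt (n + 1)) :
    ev (j + 1) g = up j (ev j g) := by
  have : win gx gt (n + 1) ≤ MonoidHom.eqLocus (ev (j + 1)) ((up j).comp (ev j)) := by
    rw [win, Subgroup.closure_le]
    rintro _ ⟨i, hi, rfl⟩
    have hi' : i < n + 1 := hi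
    show ev (j + 1) (xs gx gt i) = (up j) (ev j (xs gx gt i))
    rw [map_xs, map_xs, ev_x, ev_t, ev_x, ev_t]
    exact up_xs j i (by omega)
  exact this hg

lemma win_finite (n : ℕ) : Finite (win gx gt (n + 1)) := by
  let f : win gx gt (n + 1) → (∀ j : Fin (n + 1), (stage j).E) := fun g j => ev j g.1
  apply Finite.of_injective f
  intro g h hgh
  apply Subtype.ext
  apply ev_inj
  have key : ∀ j, ev j g.1 = ev j h.1 := by
    intro j
    induction j with
    | zero => exact congrFun hgh ⟨0, by omega⟩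
    | succ j ih =>
      by_cases hj : j + 1 < n + 1
      · exact congrFun hgh ⟨j + 1, hj⟩
      · rw [win_up n j (by omega) g.1 g.2, win_up n j (by omega) h.1 h.2, ih]
  exact key

/-- the kernels -/
lemma NN_exists (s : ℕ) : ∃ N : Subgroup GG, N.Normal ∧ N.FiniteIndex ∧
    ∀ p : ℕ, p.Prime → p ≤ s → ∀ g ∈ N, g ^ p = 1 → g = 1 := by
  let f : GG →* (∀ j : Fin (s + 1), (stage j).E) := MonoidHom.pi (fun j => ev j)
  refine ⟨f.ker, inferInstance, inferInstance, ?_⟩
  intro p hp hps g hg hgp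
  apply ev_inj
  intro n
  rw [map_one]
  have h0 : ∀ j : Fin (s + 1), ev j g = 1 := fun j => congrFun (MonoidHom.mem_ker.1 hg) j
  induction n with
  | zero => exact h0 ⟨0, by omega⟩
  | succ n ih =>
    by_cases hn : n + 1 < s + 1
    · exact h0 ⟨n + 1, hn⟩
    · apply down_tors n p hp (by omega)
      · rw [ev_down, ih]
      · rw [← map_pow, hgp, map_one]

/-- integer-indexed windows -/
noncomputable def Wz (N : ℕ) : Subgroup GG :=
  (win gx gt (2 * N + 1)).map (MulAut.conj (gt ^ N)).toMonoidHom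

lemma Wz_finite (N : ℕ) : Finite (Wz N) := by
  have := win_finite (2 * N)
  have h : (Wz N : Set GG).Finite := by
    have h2 : ((win gx gt (2 * N + 1) : Subgroup GG) : Set GG).Finite := Set.toFinite _
    exact h2.image _
  exact h

lemma win_mono_D {n m : ℕ} (h : n ≤ m) : win gx gt n ≤ win gx gt m := by
  apply Subgroup.closure_mono
  apply Set.image_mono
  intro i hi
  exact lt_of_lt_of_le hi h

lemma win_shift {n : ℕ} {g : GG} (hg : g ∈ win gx gt n) : gt⁻¹ * g * gt ∈ win gx gt (n + 1) := by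
  have : win gx gt n ≤ (win gx gt (n + 1)).comap (MulAut.conj (gt⁻¹)).toMonoidHom := by
    rw [win, Subgroup.closure_le]
    rintro _ ⟨i, hi, rfl⟩
    have hi' : i < n := hi
    show gt⁻¹ * xs gx gt i * (gt⁻¹)⁻¹ ∈ win gx gt (n + 1)
    rw [inv_inv, ← xs_succ]
    exact Subgroup.subset_closure ⟨i + 1, by show i + 1 < n + 1; omega, rfl⟩
  have h2 := this hg
  have h3 : gt⁻¹ * g * (gt⁻¹)⁻¹ ∈ win gx gt (n + 1) := h2
  rwa [inv_inv] at h3

lemma mem_Wz {N : ℕ} {g : GG} : g ∈ Wz N ↔ (gt ^ N)⁻¹ * g * gt ^ N ∈ win gx gt (2 * N + 1) := by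
  constructor
  · rintro ⟨h, hh, rfl⟩
    show (gt ^ N)⁻¹ * (gt ^ N * h * (gt ^ N)⁻¹) * gt ^ N ∈ win gx gt (2 * N + 1)
    have : (gt ^ N)⁻¹ * (gt ^ N * h * (gt ^ N)⁻¹) * gt ^ N = h := by group
    rw [this]
    exact hh
  · intro h
    refine ⟨_, h, ?_⟩
    show gt ^ N * ((gt ^ N)⁻¹ * g * gt ^ N) * (gt ^ N)⁻¹ = g
    group

lemma Wz_t {N : ℕ} {g : GG} (hg : g ∈ Wz N) : gt⁻¹ * g * gt ∈ Wz (N + 1) := by
  rw [mem_Wz] at hg ⊢
  have h1 := win_shift (win_shift hg)
  have h2 : gt⁻¹ * (gt⁻¹ * ((gt ^ N)⁻¹ * g * gt ^ N) * gt) * gt =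
      (gt ^ (N + 1))⁻¹ * (gt⁻¹ * g * gt) * gt ^ (N + 1) := by
    rw [pow_succ]
    group
  rw [h2] at h1
  have h5 : 2 * N + 1 + 1 + 1 = 2 * (N + 1) + 1 := by ring
  rwa [h5] at h1

lemma Wz_t' {N : ℕ} {g : GG} (hg : g ∈ Wz N) : gt * g * gt⁻¹ ∈ Wz (N + 1) := by
  rw [mem_Wz] at hg ⊢
  have h2 : (gt ^ (N + 1))⁻¹ * (gt * g * gt⁻¹) * gt ^ (N + 1) = (gt ^ N)⁻¹ * g * gt ^ N := by
    rw [pow_succ']
    group
  rw [h2]
  exact win_mono_D (by omega) hg

lemma Wz_succ (N : ℕ) : Wz N ≤ Wz (N + 1) := by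
  intro g hg
  rw [mem_Wz] at hg ⊢
  have h1 := win_shift hg
  have h2 : gt⁻¹ * ((gt ^ N)⁻¹ * g * gt ^ N) * gt = (gt ^ (N + 1))⁻¹ * g * gt ^ (N + 1) := by
    rw [pow_succ]
    group
  rw [h2] at h1
  exact win_mono_D (by omega) h1

lemma Wz_mono : Monotone Wz := monotone_nat_of_le_succ Wz_succ

/-- the locally finite normal subgroup -/
noncomputable def LL : Subgroup GG := ⨆ N, Wz N

lemma mem_LL {g : GG} : g ∈ LL ↔ ∃ N, g ∈ Wz N := by
  rw [LL, Subgroup.mem_iSup_of_directed]
  exact Wz_mono.directed_le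

lemma x_mem_Wz : gx ∈ Wz 0 := by
  rw [mem_Wz]
  have : (gt ^ 0)⁻¹ * gx * gt ^ 0 = xs gx gt 0 := by rw [xs_zero]; simp
  rw [this]
  exact Subgroup.subset_closure ⟨0, by show 0 < 2 * 0 + 1; omega, rfl⟩

instance LL_normal : LL.Normal := by
  constructor
  intro n hn g
  have key : ∀ g : GG, g ∈ Subgroup.closure ({gx, gt} : Set GG) → (∀ n ∈ LL, g * n * g⁻¹ ∈ LL) ∧
      (∀ n ∈ LL, g⁻¹ * n * g ∈ LL) := by
    intro g hg
    induction hg using Subgroup.closure_induction with
    | mem g hg =>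
      rcases hg with rfl | hg
      · have hx : gx ∈ LL := mem_LL.2 ⟨0, x_mem_Wz⟩
        exact ⟨fun n hn => LL.mul_mem (LL.mul_mem hx hn) (LL.inv_mem hx),
          fun n hn => LL.mul_mem (LL.mul_mem (LL.inv_mem hx) hn) hx⟩
      · rw [Set.mem_singleton_iff] at hg
        subst hg
        constructor
        · intro n hn
          obtain ⟨N, hN⟩ := mem_LL.1 hn
          exact mem_LL.2 ⟨N + 1, Wz_t' hN⟩
        · intro n hn
          obtain ⟨N, hN⟩ := mem_LL.1 hn
          exact mem_LL.2 ⟨N + 1, Wz_t hN⟩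
    | one => simp
    | mul a b _ _ ha hb =>
      constructor
      · intro n hn
        have := ha.1 _ (hb.1 n hn)
        have h2 : a * (b * n * b⁻¹) * a⁻¹ = a * b * n * (a * b)⁻¹ := by group
        rwa [h2] at this
      · intro n hn
        have := hb.2 _ (ha.2 n hn)
        have h2 : b⁻¹ * (a⁻¹ * n * a) * b = (a * b)⁻¹ * n * (a * b) := by group
        rwa [h2] at this
    | inv a _ ha =>
      constructor
      · intro n hn
        rw [inv_inv]
        exact ha.2 n hn
      · intro n hn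
        rw [inv_inv]
        exact ha.1 n hn
  exact (key g (by rw [gen_top]; trivial)).1 n hn

lemma LL_tors : ∀ g ∈ LL, IsOfFinOrder g := by
  intro g hg
  obtain ⟨N, hN⟩ := mem_LL.1 hg
  have := Wz_finite N
  have h := isOfFinOrder_of_finite (⟨g, hN⟩ : Wz N)
  have h2 := (Wz N).subtype.isOfFinOrder h
  exact h2

/-- the quotient is commutative -/
lemma quot_comm : ∀ a b : GG ⧸ LL, a * b = b * a := by
  have hx : (QuotientGroup.mk' LL gx) = 1 :=
    (QuotientGroup.eq_one_iff gx).2 (mem_LL.2 ⟨0, x_mem_Wz⟩)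
  have key : ∀ a : GG ⧸ LL, a ∈ Subgroup.zpowers (QuotientGroup.mk' LL gt) := by
    intro a
    obtain ⟨g, rfl⟩ := QuotientGroup.mk'_surjective LL a
    have hle : Subgroup.closure ({gx, gt} : Set GG) ≤
        (Subgroup.zpowers (QuotientGroup.mk' LL gt)).comap (QuotientGroup.mk' LL) := by
      rw [Subgroup.closure_le]
      rintro h (rfl | hh)
      · show QuotientGroup.mk' LL gx ∈ Subgroup.zpowers (QuotientGroup.mk' LL gt)
        rw [hx]
        exact Subgroup.one_mem _
      · rw [Set.mem_singleton_iff] at hh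
        subst hh
        exact Subgroup.mem_zpowers _
    rw [gen_top] at hle
    exact hle trivial
  intro a b
  obtain ⟨i, rfl⟩ := Subgroup.mem_zpowers_iff.1 (key a)
  obtain ⟨j, rfl⟩ := Subgroup.mem_zpowers_iff.1 (key b)
  rw [← zpow_add, ← zpow_add, add_comm]

lemma comm_le : commutator GG ≤ LL := by
  rw [commutator_def, Subgroup.commutator_le]
  intro a _ b _
  rw [← QuotientGroup.eq_one_iff]
  have h : (QuotientGroup.mk' LL) ⁅a, b⁆ = 1 := by
    rw [map_commutatorElement, commutatorElement_eq_one_iff_mul_comm]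
    exact quot_comm _ _
  exact h

end H16.EA
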