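import Mathlib
import Pool.Agent.H16.EA.Defs
import Pool.Agent.H16.EA.C
import Pool.Agent.H16.EA.D

namespace H16.EA

/-- `GG` is elementary amenable (in the sense of the problem file). -/
theorem elem (P : ∀ (H : Type) [Group H], Prop)
    (h1 : ∀ (H : Type) [Group H] [Finite H], P H)
    (h2 : ∀ (H : Type) [CommGroup H], P H)
    (h6 : ∀ (H : Type) [Group H] (N : Subgroup H) [N.Normal], P N → P (H ⧸ N) → P H)
    (h7 : ∀ (H : Type) [Group H] (S : Set (Subgroup H)),
        DirectedOn (fun A B => A ≤ B) S → sSup S = ⊤ → (∀ K ∈ S, P K) → P H) : P GG := by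
  apply h6 GG LL
  · apply h7 LL (Set.range (fun N => (Wz N).subgroupOf LL))
    · rintro _ ⟨N, rfl⟩ _ ⟨M, rfl⟩
      refine ⟨_, ⟨max N M, rfl⟩, ?_, ?_⟩
      · intro g hg
        exact Wz_mono (le_max_left N M) hg
      · intro g hg
        exact Wz_mono (le_max_right N M) hg
    · rw [eq_top_iff]
      intro g _
      obtain ⟨N, hN⟩ := mem_LL.1 g.2
      have h : (Wz N).subgroupOf LL ≤ sSup (Set.range (fun N => (Wz N).subgroupOf LL)) :=
        le_sSup ⟨N, rfl⟩
      exact h hN
    · rintro _ ⟨N, rfl⟩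
      have := Wz_finite N
      have : Finite ((Wz N).subgroupOf LL) := by
        apply Finite.of_injective (fun g : (Wz N).subgroupOf LL => (⟨g.1.1, g.2⟩ : Wz N))
        intro a b hab
        have h := congrArg Subtype.val hab
        exact Subtype.ext (Subtype.ext h)
      exact h1 _
  · let inst : CommGroup (GG ⧸ LL) := { (inferInstance : Group (GG ⧸ LL)) with mul_comm := quot_comm }
    exact @h2 (GG ⧸ LL) inst

end H16.EA
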